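import Pool.Agent.Helper64.PQ.Goals
import Pool.Agent.Helper89.BigA

set_option autoImplicit false

/-!
Packet PQ-E2 (project PQ, MP_2b9d24_gt): extension of isotopies over the punctures.
-/

open Topology Filter Set Metric UpperHalfPlane
open scoped MatrixGroups
open Pool.Agent.Helper78.BigMap
open Pool.Agent.Helper64.PQ

namespace Pool.Agent.Helper69.PQ

lemma finE3 : E3.Finite := by
  unfold E3
  exact Set.toFinite _

lemma finC : (inC E3).Finite := finE3.image _

section
variable {X : Type*} [TopologicalSpace X] [T2Space X] {J : ℕ → OpenPartialHomeomorph ℂ X}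

lemma inC_sub : inC E3 ⊆ ball (0 : ℂ) 1 := by
  rintro _ ⟨x, hx, rfl⟩
  have h : |x| < 1 := by
    rcases hx with rfl | rfl | rfl
    · norm_num [abs_lt]
    · norm_num [abs_lt]
    · norm_num [abs_lt]
  simpa [Complex.norm_real] using h

lemma ball_sub : ball (0 : ℂ) 1 ⊆ ball (0 : ℂ) 2 := ball_subset_ball (by norm_num)

lemma cball_sub : closedBall (0 : ℂ) 1 ⊆ ball (0 : ℂ) 2 := closedBall_subset_ball (by norm_num)

omit [T2Space X] in
lemma mem_target (hD : Data J) {i : ℕ} {z : ℂ} (hz : z ∈ ball (0 : ℂ) 2) :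
    J i z ∈ (J i).target :=
  (J i).map_source (by rw [hD.source i]; exact hz)

omit [T2Space X] in
lemma injJ (hD : Data J) {i : ℕ} {z w : ℂ} (hz : z ∈ ball (0 : ℂ) 2) (hw : w ∈ ball (0 : ℂ) 2)
    (h : J i z = J i w) : z = w :=
  (J i).injOn (by rw [hD.source i]; exact hz) (by rw [hD.source i]; exact hw) h

omit [T2Space X] in
lemma PP_iff (hD : Data J) {i : ℕ} {z : ℂ} (hz : z ∈ ball (0 : ℂ) 2) :
    J i z ∈ PP J ↔ z ∈ inC E3 := by
  constructor
  · intro h
    obtain ⟨k, w, hw, hk⟩ := mem_iUnion.1 h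
    have hw2 : w ∈ ball (0 : ℂ) 2 := ball_sub (inC_sub hw)
    by_cases hik : i = k
    · subst hik
      rw [injJ hD hz hw2 hk.symm]
      exact hw
    · exfalso
      have h1 := mem_target hD (i := i) hz
      have h2 := mem_target hD (i := k) hw2
      rw [hk] at h2
      exact (Set.disjoint_left.1 (hD.disj hik)) h1 h2
  · intro h
    exact mem_iUnion.2 ⟨i, z, h, rfl⟩

lemma closedPP (hD : Data J) : IsClosed (PP J) := by
  rw [← isOpen_compl_iff, isOpen_iff_mem_nhds]
  intro x hx
  by_cases hC : x ∈ ⋃ i, J i '' closedBall (0 : ℂ) 1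
  · obtain ⟨i, z, hz, rfl⟩ := mem_iUnion.1 hC
    have h1 : IsClosed (J i '' inC E3) := (finC.image _).isClosed
    have h2 : J i z ∈ (J i).target ∩ (J i '' inC E3)ᶜ := by
      refine ⟨mem_target hD (cball_sub hz), fun h => hx (mem_iUnion.2 ⟨i, h⟩)⟩
    filter_upwards [((J i).open_target.inter h1.isOpen_compl).mem_nhds h2] with y hy hy2
    obtain ⟨k, w, hw, hk⟩ := mem_iUnion.1 hy2
    by_cases hik : i = k
    · subst hik
      exact hy.2 ⟨w, hw, hk⟩
    · have h3 := mem_target hD (i := k) (ball_sub (inC_sub hw))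
      rw [hk] at h3
      exact (Set.disjoint_left.1 (hD.disj hik)) hy.1 h3
  · filter_upwards [hD.closed.isOpen_compl.mem_nhds hC] with y hy hy2
    obtain ⟨k, w, hw, hk⟩ := mem_iUnion.1 hy2
    exact hy (mem_iUnion.2 ⟨k, w, ball_subset_closedBall (inC_sub hw), hk⟩)

lemma patch (hD : Data J) {O : Set (OpenPartialHomeomorph (Sf J) ℂ)}
    {k : ℕ → OpenPartialHomeomorph ℂ (Sf J)} (hk : IsK J O k) (i : ℕ) : Patch E3 (k i) := by
  refine ⟨finE3.isCompact, finE3.countable.isTotallyDisconnected, ?_, (hk i).2.1, ?_⟩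
  · rintro x (rfl | rfl | rfl)
    · constructor <;> norm_num
    · constructor <;> norm_num
    · constructor <;> norm_num
  · have h1 : IsCompact (J i '' closedBall (0 : ℂ) 1) := by
      refine (isCompact_closedBall _ _).image_of_continuousOn ?_
      refine (J i).continuousOn.mono ?_
      rw [hD.source i]
      exact cball_sub
    have h2 : k i '' (closedBall (0 : ℂ) 1 \ inC E3) =
        (Subtype.val : Sf J → X) ⁻¹' (J i '' closedBall (0 : ℂ) 1) := by
      ext x
      constructor
      · rintro ⟨z, hz, rfl⟩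
        refine ⟨z, hz.1, ?_⟩
        rw [(hk i).2.2 z (by rw [(hk i).2.1]; exact ⟨cball_sub hz.1, hz.2⟩)]
      · rintro ⟨z, hz, hx⟩
        have hz2 : z ∉ inC E3 := by
          intro h
          apply x.2
          rw [← hx]
          exact (PP_iff hD (cball_sub hz)).2 h
        refine ⟨z, ⟨hz, hz2⟩, ?_⟩
        apply Subtype.ext
        rw [(hk i).2.2 z (by rw [(hk i).2.1]; exact ⟨cball_sub hz, hz2⟩), hx]
    rw [h2]
    exact h1.isClosed.preimage continuous_subtype_val

end

open Classical in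
/-- **Packet PQ-E2**: extension of isotopies over the punctures. -/
theorem goalE2.{v} : Pool.Agent.Helper64.PQ.GoalE2.{v} := by
  intro X _ _ J O k hD hk H hH1 hH0
  have hPP := closedPP hD
  let G : unitInterval × X → X := fun p =>
    if h : p.2 ∈ PP J then p.2 else ((H (p.1, ⟨p.2, h⟩)).2 : X)
  have hG1 : ∀ t, ∀ x : Sf J, G (t, x) = ((H (t, x)).2 : X) := by
    intro t x
    have : (x : X) ∉ PP J := x.2
    simp only [G, dif_neg this]
  have hG2 : ∀ t, ∀ x ∈ PP J, G (t, x) = x := by
    intro t x hx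
    simp only [G, dif_pos hx]
  have hc : Continuous G := by
    rw [continuous_iff_continuousAt]
    rintro ⟨t, x⟩
    by_cases hx : x ∈ PP J
    · obtain ⟨i, e, he, hex⟩ := mem_iUnion.1 hx
      have he2 : e ∈ ball (0 : ℂ) 2 := ball_sub (inC_sub he)
      have hes : e ∈ (J i).source := by rw [hD.source i]; exact he2
      rw [ContinuousAt, hG2 t x hx]
      intro U hU
      rw [← hex] at hU
      have h1 : J i ⁻¹' U ∩ ball (0 : ℂ) 2 ∈ 𝓝 e :=
        inter_mem ((J i).continuousAt hes hU) (isOpen_ball.mem_nhds he2)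
      obtain ⟨ε, hε, hεs⟩ := Metric.mem_nhds_iff.1 h1
      obtain ⟨r, hr, rfl⟩ := he
      obtain ⟨δ, hδ, hA⟩ := Pool.Agent.Helper89.BigA.goalA2 (Sf J) E3 (k i) (patch hD hk i) H
        hH1 hH0 r hr ε hε
      set ρ := min δ ε with hρ
      have hρ0 : 0 < ρ := lt_min hδ hε
      have hsub : ball (r : ℂ) ρ ⊆ (J i).source := by
        rw [hD.source i]
        exact ((ball_subset_ball (min_le_right _ _)).trans hεs).trans inter_subset_right
      have hopen : IsOpen (J i '' ball (r : ℂ) ρ) :=
        ((J i).isOpen_image_iff_of_subset_source hsub).2 isOpen_ball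
      have hxm : x ∈ J i '' ball (r : ℂ) ρ := ⟨r, mem_ball_self hρ0, hex⟩
      have hN : (Prod.snd : unitInterval × X → X) ⁻¹' (J i '' ball (r : ℂ) ρ) ∈ 𝓝 (t, x) :=
        (hopen.preimage continuous_snd).mem_nhds hxm
      change G ⁻¹' U ∈ 𝓝 (t, x)
      filter_upwards [hN]
      rintro ⟨s, y⟩ ⟨z, hz, hzy⟩
      change J i z = y at hzy
      subst hzy
      have hzε : z ∈ ball (r : ℂ) ε := ball_subset_ball (min_le_right _ _) hz
      have hzδ : z ∈ ball (r : ℂ) δ := ball_subset_ball (min_le_left _ _) hz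
      have hz2 : z ∈ ball (0 : ℂ) 2 := (hεs hzε).2
      by_cases hy : J i z ∈ PP J
      · change G (s, J i z) ∈ U
        rw [hG2 s _ hy]
        exact (hεs hzε).1
      · have hzE : z ∉ inC E3 := fun h => hy ((PP_iff hD hz2).2 h)
        have hzk : z ∈ (k i).source := by rw [(hk i).2.1]; exact ⟨hz2, hzE⟩
        obtain ⟨w, hw, hw2⟩ := hA s z ⟨hzδ, hzE⟩
        change G (s, J i z) ∈ U
        rw [← (hk i).2.2 z hzk, hG1, ← hw2]
        have hwk : w ∈ (k i).source := by
          rw [(hk i).2.1]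
          exact ⟨(hεs hw.1).2, hw.2⟩
        rw [(hk i).2.2 w hwk]
        exact (hεs hw.1).1
    · have hoe : IsOpenEmbedding (Prod.map id Subtype.val : unitInterval × Sf J →
          unitInterval × X) :=
        IsOpenEmbedding.id.prodMap hPP.isOpen_compl.isOpenEmbedding_subtypeVal
      have h1 : Continuous (G ∘ (Prod.map id Subtype.val : unitInterval × Sf J →
          unitInterval × X)) := by
        have h2 : (G ∘ (Prod.map id Subtype.val : unitInterval × Sf J → unitInterval × X)) =
            fun p => ((H p).2 : X) := by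
          funext p
          exact hG1 p.1 p.2
        rw [h2]
        exact continuous_subtype_val.comp (continuous_snd.comp H.continuous)
      have h3 := (hoe.continuousAt_iff (x := (t, (⟨x, hx⟩ : Sf J)))).1 h1.continuousAt
      exact h3
  exact ⟨⟨G, hc⟩, hG1, hG2⟩

end Pool.Agent.Helper69.PQ
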